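import Pool.Agent.P8H90.BJ.Zfc
import Pool.Agent.R593.Rnd.Polar

/-!
# Forcings with the countable chain condition
-/

set_option autoImplicit false
set_option linter.unusedSectionVars false

namespace Pool.Agent.P8H90.BJ

open Cardinal Set Pool.Agent.TH773.PSet Pool.Agent.R593.Rnd

universe u

/-- Among uncountably many conditions two are compatible. -/
def CCC (P : Type u) [Preorder P] : Prop :=
  ∀ (X : Type) (f : X → P), ¬ Countable X → ∃ x x', x ≠ x' ∧ ∃ s, s ≤ f x ∧ s ≤ f x'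

section

variable {P : Type u} [Preorder P] (hP : CCC P)

include hP

theorem ccc_same' {X Z : Type} (h : #Z * ℵ₀ < #X) (f : X → P)
    (z : X → Z) : ∃ x x', x ≠ x' ∧ z x = z x' ∧ ∃ s, s ≤ f x ∧ s ≤ f x' := by
  have h1 : ∃ c, ¬ Countable {x // z x = c} := by
    by_contra hcon
    push Not at hcon
    have h2 : #X = Cardinal.sum fun c => #{x // z x = c} := by
      rw [← mk_sigma]
      exact (Equiv.sigmaFiberEquiv z).symm.cardinal_eq
    have h3 : #X ≤ #Z * ℵ₀ := by
      rw [h2]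
      refine (Cardinal.sum_le_sum _ (fun _ => ℵ₀) fun c => ?_).trans ?_
      · have := hcon c
        exact mk_le_aleph0
      · rw [Cardinal.sum_const']
    exact absurd h3 (not_le.2 h)
  obtain ⟨c, hc⟩ := h1
  obtain ⟨y, y', hne, hcomp⟩ := hP {x // z x = c} (fun x : {x // z x = c} => f x.1) hc
  exact ⟨y.1, y'.1, fun h => hne (Subtype.ext h), y.2.trans y'.2.symm, hcomp⟩

theorem fNotOnto_of_lt {X Y : Type} (h : #X * ℵ₀ < #Y) (p : P) : p ∈ fNotOnto P X Y := by
  intro q _ hq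
  obtain ⟨r, _, R, hR1, hR2⟩ := mem_fex.1 hq q le_rfl
  have h1 : ∀ y : Y, ∃ s ≤ r, ∃ x : X, s ∈ meets (R x y) := fun y =>
    mem_fex.1 (hR2 y) r le_rfl
  choose f hf x hx using h1
  obtain ⟨y, y', hne, hz, s, hs1, hs2⟩ := ccc_same' hP h f x
  apply hne
  refine isFun_unique ((reg_isFun R).1 r hR1 s (hs1.trans (hf y)))
    ((reg_meets _).1 _ (hx y) s hs1) ?_
  rw [hz]
  exact (reg_meets _).1 _ (hx y') s hs2

theorem countable_values {X Y : Type} {R : X → Y → Set P} {q : P} (hq : q ∈ IsFun R) (x : X) :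
    {y | ∃ s ≤ q, s ∈ meets (R x y)}.Countable := by
  by_contra hcon
  have hcon' : ¬ Countable {y | ∃ s ≤ q, s ∈ meets (R x y)} := hcon
  have h1 : ∀ y : {y | ∃ s ≤ q, s ∈ meets (R x y)}, ∃ s ≤ q, s ∈ meets (R x y.1) := fun y => y.2
  choose s hs hs' using h1
  obtain ⟨y, y', hne, t, ht, ht'⟩ := hP _ s hcon'
  apply hne
  exact Subtype.ext (isFun_unique ((reg_isFun R).1 q hq t (ht.trans (hs y)))
    ((reg_meets _).1 _ (hs' y) t ht) ((reg_meets _).1 _ (hs' y') t ht'))

theorem fRegu_of_regu {K : Type} [LinearOrder K] [WellFoundedLT K] (hK : Regu K)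
    (h0 : ℵ₀ < #K) (p : P) : p ∈ fRegu P K := by
  intro a R
  refine mem_fimp.2 fun q _ hq => ⟨q, le_rfl, ?_⟩
  have h1 : #(⋃ x, {y | ∃ s ≤ q, s ∈ meets (R x y)} : Set K) < #K := by
    refine (mk_iUnion_le_sum_mk).trans_lt ?_
    refine ((Cardinal.sum_le_sum _ (fun _ => ℵ₀) fun x =>
      le_aleph0_iff_set_countable.2 (countable_values hP hq x))).trans_lt ?_
    rw [Cardinal.sum_const']
    exact mul_lt_of_lt h0.le (mk_Iio_lt hK a) h0
  obtain ⟨b, hb⟩ := exists_bound_of_lt hK _ h1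
  refine mem_fex_of b fun r hr x y hy s hs hs' => ?_
  exact hy (hb y (mem_iUnion.2 ⟨x, s, hs.trans hr, hs'⟩))

end

/-! ### Names for ground model functions -/

section

variable {P : Type u} [Preorder P]

theorem evLe_check {f g : ℕ → ℕ} (h : EvLeF f g) (p : P) : p ∈ EvLe (check f) (check g) := by
  obtain ⟨N, hN⟩ := h
  refine mem_fex_of N fun q _ n hn a b hab r _ hr => ?_
  have h1 := mem_meets_check.1 hr.1
  have h2 := mem_meets_check.1 hr.2
  have := hN n hn
  omega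

theorem not_evLe_check {f g : ℕ → ℕ} (h : ¬ EvLeF f g) (p : P) :
    p ∈ fnot (EvLe (check f) (check g)) := by
  intro q _ hq
  obtain ⟨r, _, N, hN⟩ := mem_fex.1 hq q le_rfl
  refine h ⟨N, fun n hn => ?_⟩
  by_contra hlt
  exact hN n hn (f n) (g n) (not_le.1 hlt) r le_rfl ⟨mem_meets_check.2 rfl, mem_meets_check.2 rfl⟩

theorem fMeet_check {J K : Type} [LinearOrder K] {π : J → K} {σ : K → J} {e : J → ℕ → ℕ}
    (h : Meet π σ e) (p : P) : p ∈ fMeet π σ (fun a => check (e a)) := by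
  intro l hl hl' N
  obtain ⟨n, hn, hn'⟩ := h l hl hl' N
  refine mem_fex_of n fun q _ => mem_fex_of hn fun r _ x hx a b hab s _ hs => ?_
  have h1 := mem_meets_check.1 hs.1
  have h2 := mem_meets_check.1 hs.2
  have := hn' x hx
  omega

end

end Pool.Agent.P8H90.BJ
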