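import Mathlib
import Pool.Agent.R593.Rnd.Defs
import Pool.Agent.V11242.RN.Defs

/-!
# Families of functions indexed by a product of four well-ordered sets

The sentence `PhiFor K₁ K₂ K₃ K₄`, and its literal translation `PhiHolds P K₁ K₂ K₃ K₄` into the
forcing language of `Pool.Agent.TH773.PSet.Defs`: a sentence is the set of the conditions which
force it, and `IsFun`, `IsOnto`, `EvLe` are the sentences of `Pool.Agent.R593.Rnd.Defs`.
-/

set_option autoImplicit false

namespace Pool.Agent.P8H90.BJ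

open Pool.Agent.TH773.PSet Pool.Agent.R593.Rnd

universe u

/-! ### The sentence -/

/-- No function from `X` to `Y` is onto. -/
def NotOnto (X Y : Type) : Prop := ¬ ∃ f : X → Y, Function.Surjective f

/-- Every function from a proper initial segment of `K` to `K` is bounded. -/
def Regu (K : Type) [LinearOrder K] : Prop :=
  ∀ (a : K) (f : {x // x < a} → K), ∃ b, ∀ x, f x < b

/-- `f n ≤ g n` for all but finitely many `n`. -/
def EvLeF (f g : ℕ → ℕ) : Prop := ∃ N, ∀ n, N ≤ n → f n ≤ g n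

/-- For all pairs `(a i, d i)`, `i < k`, such that `d` is strictly increasing and `π (a i) < d i`,
there are infinitely many `n` such that `e (a i) n ≤ e (σ (d i)) n` for all `i`. -/
def Meet {J K : Type} [LinearOrder K] (π : J → K) (σ : K → J) (e : J → ℕ → ℕ) : Prop :=
  ∀ l : List (J × K), l.Pairwise (fun x y => x.2 < y.2) → (∀ x, x ∈ l → π x.1 < x.2) →
    ∀ N : ℕ, ∃ n, N ≤ n ∧ ∀ x, x ∈ l → e x.1 n ≤ e (σ x.2) n

section

variable (K₁ K₂ K₃ K₄ : Type) [LinearOrder K₁] [LinearOrder K₂] [LinearOrder K₃] [LinearOrder K₄]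

/-- The product, with the coordinatewise partial order. -/
abbrev Idx : Type := K₁ × K₂ × K₃ × K₄

variable {K₁ K₂ K₃ K₄}

/-- the second coordinate -/
def pr2 (a : Idx K₁ K₂ K₃ K₄) : K₂ := a.2.1

/-- the third coordinate -/
def pr3 (a : Idx K₁ K₂ K₃ K₄) : K₃ := a.2.2.1

/-- `o` with the second coordinate replaced -/
def at2 (o : Idx K₁ K₂ K₃ K₄) (d : K₂) : Idx K₁ K₂ K₃ K₄ := (o.1, d, o.2.2.1, o.2.2.2)

/-- `o` with the third coordinate replaced -/
def at3 (o : Idx K₁ K₂ K₃ K₄) (d : K₃) : Idx K₁ K₂ K₃ K₄ := (o.1, o.2.1, d, o.2.2.2)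

variable (K₁ K₂ K₃ K₄)

/-- There are functions `e a`, for `a` in the product of the four linear orders, such that
`e a ≤* e b` if and only if `a ≤ b`, every function is `≤*` one of them, and for all `o` the
functions with the index `o` whose second (third) coordinate is replaced by `d` often are above
the functions with the indices whose second (third) coordinate is smaller than `d`. -/
def System : Prop :=
  ∃ e : Idx K₁ K₂ K₃ K₄ → ℕ → ℕ,
    (∀ a b, a ≤ b → EvLeF (e a) (e b)) ∧ (∀ a b, ¬ a ≤ b → ¬ EvLeF (e a) (e b)) ∧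
    (∀ f : ℕ → ℕ, ∃ a, EvLeF f (e a)) ∧
    (∀ o, Meet pr2 (at2 o) e) ∧ (∀ o, Meet pr3 (at3 o) e)

/-- The combinatorial sentence. Its first clauses say that `K₁, …, K₄` have regular cardinality,
that the proper initial segments are smaller, and that `ℵ₁ < #K₁ < #K₂ < #K₃ < #K₄`. -/
def PhiFor : Prop :=
  (∃ a : K₁, NotOnto ℕ {x // x ≤ a}) ∧ NotOnto K₁ K₂ ∧ NotOnto K₂ K₃ ∧ NotOnto K₃ K₄ ∧
    Regu K₁ ∧ Regu K₂ ∧ Regu K₃ ∧ Regu K₄ ∧ System K₁ K₂ K₃ K₄

/-- Every family of null subsets of `2^ω` that is indexed by `K` fails to cover `2^ω`. -/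
def NoNullCoverFor (K : Type) : Prop :=
  ∀ C : K → ℕ → Set (List Bool), (∀ k, Pool.Agent.V11242.RN.NullCode (C k)) →
    ∃ x : ℕ → Bool, ∀ k, ¬ Pool.Agent.V11242.RN.InCoded x (C k)

/-- The sentence for the final extension. -/
def PsiFor : Prop := PhiFor K₁ K₂ K₃ K₄ ∧ NoNullCoverFor K₄

end

/-! ### The forcing language -/

section Forcing

variable (P : Type u) [Preorder P]

/-- No function from `X` to `Y` is onto. -/
def fNotOnto (X Y : Type) : Set P := fnot (fex fun R : X → Y → Set P => fand (IsFun R) (IsOnto R))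

/-- Every function from a proper initial segment of `K` to `K` is bounded. -/
def fRegu (K : Type) [LinearOrder K] : Set P :=
  fall fun a : K => fall fun R : {x // x < a} → K → Set P => fimp (IsFun R)
    (fex fun b : K => fall fun x => fall fun y => fall fun _ : ¬ y < b => fnot (meets (R x y)))

variable {P}

/-- `f n ≤ g n`, for the functions named by `f` and `g`. -/
def LeAt (f g : ℕ → ℕ → Set P) (n : ℕ) : Set P :=
  fall fun a => fall fun b => fall fun _ : b < a => fnot (fand (meets (f n a)) (meets (g n b)))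

/-- The translation of `Meet`. -/
def fMeet {J K : Type} [LinearOrder K] (π : J → K) (σ : K → J) (e : J → ℕ → ℕ → Set P) : Set P :=
  fall fun l : List (J × K) => fall fun _ : l.Pairwise (fun x y => x.2 < y.2) =>
    fall fun _ : ∀ x, x ∈ l → π x.1 < x.2 => fall fun N : ℕ => fex fun n => fex fun _ : N ≤ n =>
      fall fun x => fall fun _ : x ∈ l => LeAt (e x.1) (e (σ x.2)) n

variable (P)
variable (K₁ K₂ K₃ K₄ : Type) [LinearOrder K₁] [LinearOrder K₂] [LinearOrder K₃] [LinearOrder K₄]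

/-- The translation of `System`. -/
def fSystem : Set P :=
  fex fun e : Idx K₁ K₂ K₃ K₄ → ℕ → ℕ → Set P =>
    fand (fall fun a => IsFun (e a))
      (fand (fall fun a => fall fun b => fall fun _ : a ≤ b => EvLe (e a) (e b))
        (fand (fall fun a => fall fun b => fall fun _ : ¬ a ≤ b => fnot (EvLe (e a) (e b)))
          (fand (fall fun f : ℕ → ℕ → Set P => fimp (IsFun f) (fex fun a => EvLe f (e a)))
            (fand (fall fun o => fMeet pr2 (at2 o) e) (fall fun o => fMeet pr3 (at3 o) e)))))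

/-- The translation of `PhiFor K₁ K₂ K₃ K₄`. -/
def PhiHolds : Set P :=
  fand (fex fun a : K₁ => fNotOnto P ℕ {x // x ≤ a})
    (fand (fNotOnto P K₁ K₂) (fand (fNotOnto P K₂ K₃) (fand (fNotOnto P K₃ K₄)
      (fand (fRegu P K₁) (fand (fRegu P K₂) (fand (fRegu P K₃) (fand (fRegu P K₄)
        (fSystem P K₁ K₂ K₃ K₄))))))))

/-- The translation of `PsiFor K₁ K₂ K₃ K₄`. -/
def PsiHolds : Set P :=
  fand (PhiHolds P K₁ K₂ K₃ K₄) (Pool.Agent.V11242.RN.NoNullCover P K₄)

end Forcing

/-! ### Ideals and their cardinal invariants -/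

/-- A proper ideal on `ω` containing all finite sets. -/
structure IsIdeal (J : Set (Set ℕ)) : Prop where
  fin : ∀ X : Set ℕ, X.Finite → X ∈ J
  sub : ∀ X Y : Set ℕ, X ⊆ Y → Y ∈ J → X ∈ J
  union : ∀ X Y : Set ℕ, X ∈ J → Y ∈ J → X ∪ Y ∈ J
  proper : Set.univ ∉ J

/-- `f ≤_J g` if `{n | f n > g n} ∈ J`. -/
def LeJ (J : Set (Set ℕ)) (f g : ℕ → ℕ) : Prop := {n | g n < f n} ∈ J

/-- The least cardinality of a family that is not `≤_J`-bounded. -/
noncomputable def bJ (J : Set (Set ℕ)) : Cardinal.{0} :=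
  sInf {κ | ∃ F : Set (ℕ → ℕ), (¬ ∃ g, ∀ f ∈ F, LeJ J f g) ∧ Cardinal.mk F = κ}

/-- The least cardinality of a `≤_J`-dominating family. -/
noncomputable def dJ (J : Set (Set ℕ)) : Cardinal.{0} :=
  sInf {κ | ∃ D : Set (ℕ → ℕ), (∀ f, ∃ g ∈ D, LeJ J f g) ∧ Cardinal.mk D = κ}

/-- `cov(N)`: the least cardinality of a family of Lebesgue null sets of reals whose union is the
real line. -/
noncomputable def covN : Cardinal.{0} :=
  sInf {κ | ∃ F : Set (Set ℝ), (∀ A ∈ F, MeasureTheory.volume A = 0) ∧ ⋃₀ F = Set.univ ∧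
    Cardinal.mk F = κ}

/-- The ideal of the finite sets. -/
def FinIdeal : Set (Set ℕ) := {X | X.Finite}

end Pool.Agent.P8H90.BJ
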