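import Pool.Agent.Y575.MA.Main
import Pool.Agent.P8H90.BJ.Ccc

/-!
# Hechler forcing along a product order: amalgamation and the meeting property
-/

set_option autoImplicit false
set_option linter.unusedSectionVars false

namespace Pool.Agent.P8H90.BJ

open Cardinal Pool.Agent.Helper669.Iter Pool.Agent.Helper669.Forcing Pool.Agent.Y575.MA

universe u

section

variable {J : Type u} [LinearOrder J] [WellFoundedLT J] {Q : J → J → Prop}

/-- Extending a condition inside a set of coordinates closed under predecessors without changing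
the stems outside. -/
theorem amal_step {D : Set J} (hD : ∀ x ∈ D, ∀ y, Q y x → y ∈ D) {p p1 : Cond Q} (h : p1 ≤ p) :
    ∃ s ≤ p, (∀ ζ ∈ D, p1.1.st (ζ : WithTop J) <+: s.1.st (ζ : WithTop J)) ∧
      ∀ ζ, ζ ∉ D → s.1.st (ζ : WithTop J) = p.1.st (ζ : WithTop J) := by
  have hDT : ∀ ξ ∈ (fun j : J => (j : WithTop J)) '' D, ∀ η, QT Q η ξ →
      η ∈ (fun j : J => (j : WithTop J)) '' D := by
    rintro _ ⟨x, hx, rfl⟩ η ⟨c, d, rfl, h2, h3⟩
    have h4 : x = d := WithTop.coe_injective h2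
    subst h4
    exact ⟨c, hD x hx c h3, rfl⟩
  obtain ⟨s, hs, hsa, hsp, hst⟩ := amalD (Q := QT Q) (D := (fun j : J => (j : WithTop J)) '' D)
    hDT (a := rstr p1.1 ((fun j : J => (j : WithTop J)) '' D)) (p := p.1) (r := p1.1)
    (rstr_mem p1.2 _) (supp_rstr _ _) p.2 p1.2 (le_rstr _ _) h
  refine ⟨⟨s, hs⟩, hsp, fun ζ hζ => ?_, fun ζ hζ => hst _ ?_⟩
  · have h1 := (hsa (ζ : WithTop J)).1
    rwa [rstr_st (Set.mem_image_of_mem _ hζ)] at h1
  · rintro ⟨j, hj, hj'⟩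
    exact hζ (WithTop.coe_injective hj' ▸ hj)

/-- The stem at `η` can be extended to the length `n + 1` with large values. -/
theorem push_to (η : J) (v n : ℕ) (k : ℕ) : ∀ r : Cond Q,
    (r.1.st (η : WithTop J)).length + k = n →
    ∃ r' ≤ r, (r'.1.st (η : WithTop J)).length = n + 1 ∧
      v ≤ (r'.1.st (η : WithTop J)).getD n 0 := by
  have hinf : {m : ℕ | v ≤ m}.Infinite := Set.infinite_of_not_bddAbove (by
    rintro ⟨c, hc⟩
    have h4 : max c v + 1 ≤ c := hc (show v ≤ max c v + 1 by omega)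
    omega)
  induction k with
  | zero =>
    intro r hr
    obtain ⟨m, hm, r', h1, h2, _⟩ := push_one r η _ hinf
    refine ⟨r', h1, by rw [h2, List.length_append, List.length_singleton]; omega, ?_⟩
    have hr' : (r.1.st (η : WithTop J)).length = n := by omega
    rw [h2, List.getD_append_right _ _ _ _ (by rw [hr']), hr']
    simpa using hm
  | succ k ih =>
    intro r hr
    obtain ⟨m, _, r', h1, h2, _⟩ := push_one r η _ hinf
    obtain ⟨r'', h3, h4, h5⟩ := ih r' (by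
      rw [h2, List.length_append, List.length_singleton]; omega)
    exact ⟨r'', h3.trans h1, h4, h5⟩

theorem prefix_getD {s t : List ℕ} (h : s <+: t) {n : ℕ} (hn : n < s.length) :
    n < t.length ∧ t.getD n 0 = s.getD n 0 :=
  ⟨hn.trans_le h.length_le, (getD_prefix h hn).symm⟩

theorem val_eq {t : Cond Q} {ξ : J} {n a : ℕ} (h : n < (t.1.st (ξ : WithTop J)).length)
    (h' : t ∈ meets (Ee ξ n a)) : (t.1.st (ξ : WithTop J)).getD n 0 = a :=
  IsFun.unique (isFun_Ee ξ t) (meets_of_mem ⟨h, rfl⟩) h'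

/-- The generic function at a coordinate outside a closed set is not dominated by the one at a
coordinate inside. -/
theorem not_leStar_closed {D : Set J} (hD : ∀ x ∈ D, ∀ y, Q y x → y ∈ D) {b c : J} (hb : b ∈ D)
    (hc : c ∉ D) (p : Cond Q) : p ∈ fnot (LeStar (Ee c) (Ee b)) := by
  intro q _ hq
  obtain ⟨r, _, N, hN⟩ := mem_fex.1 hq q le_rfl
  set n := max N (r.1.st (c : WithTop J)).length with hn
  obtain ⟨p1, hp1, hlen, _⟩ := push_long r b n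
  obtain ⟨s, hs, hsD, hsc⟩ := amal_step hD hp1
  obtain ⟨h1, h2⟩ := prefix_getD (hsD b hb) hlen
  have h3 : (s.1.st (c : WithTop J)).length ≤ n := by
    rw [hsc c hc]
    exact le_max_right _ _
  obtain ⟨t, ht, h4, h5⟩ := push_to c ((s.1.st (b : WithTop J)).getD n 0 + 1) n
    (n - (s.1.st (c : WithTop J)).length) s (by omega)
  obtain ⟨h6, h7⟩ := st_mono ht (b : WithTop J) h1
  obtain ⟨u, hu, h8⟩ := mem_fimp.1 (hN n (le_max_left _ _) _ _) t (ht.trans hs)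
    ⟨meets_of_mem (show t ∈ Ee c n _ from ⟨by omega, rfl⟩),
      meets_of_mem (show t ∈ Ee b n _ from ⟨h6, rfl⟩)⟩
  have h9 : (t.1.st (c : WithTop J)).getD n 0 ≤ (t.1.st (b : WithTop J)).getD n 0 := h8
  omega

/-- One step for the meeting property. -/
theorem meet_step {D D' : Set J} (hD : ∀ x ∈ D, ∀ y, Q y x → y ∈ D)
    (hD' : ∀ x ∈ D', ∀ y, Q y x → y ∈ D') (hDD' : D ⊆ D') {b c : J} (hb : b ∈ D) (hc : c ∉ D)
    (hc' : c ∈ D') {n : ℕ} {p : Cond Q} (hp : (p.1.st (c : WithTop J)).length ≤ n) :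
    ∃ s ≤ p, (n < (s.1.st (b : WithTop J)).length ∧ n < (s.1.st (c : WithTop J)).length ∧
      (s.1.st (b : WithTop J)).getD n 0 ≤ (s.1.st (c : WithTop J)).getD n 0) ∧
      ∀ ζ, ζ ∉ D' → s.1.st (ζ : WithTop J) = p.1.st (ζ : WithTop J) := by
  obtain ⟨p1, hp1, hlen, _⟩ := push_long p b n
  obtain ⟨s, hs, hsD, hsc⟩ := amal_step hD hp1
  obtain ⟨h1, h2⟩ := prefix_getD (hsD b hb) hlen
  have h3 : (s.1.st (c : WithTop J)).length ≤ n := by
    rw [hsc c hc]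
    exact hp
  obtain ⟨t, ht, h4, h5⟩ := push_to c ((s.1.st (b : WithTop J)).getD n 0) n
    (n - (s.1.st (c : WithTop J)).length) s (by omega)
  obtain ⟨u, hu, huD, huc⟩ := amal_step hD' ht
  obtain ⟨h6, h7⟩ := prefix_getD (huD c hc') (n := n) (by omega)
  obtain ⟨h8, h9⟩ := st_mono hu (b : WithTop J) h1
  refine ⟨u, hu.trans hs, ⟨h8, h6, ?_⟩, fun ζ hζ => ?_⟩
  · rw [h7, h9]
    exact h5
  · rw [huc ζ hζ, hsc ζ fun h => hζ (hDD' h)]

section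

variable {J' K : Type} [PartialOrder J'] [LinearOrder K] {π : J' → K} {σ : K → J'}
  (hπ : ∀ a b, a ≤ b → π a ≤ π b) (hσ : ∀ d, π (σ d) = d) (φ : J' ≃ J)
  (hφ : ∀ a b, Q (φ a) (φ b) → a ≤ b)

include hπ hσ hφ

theorem meet_list {n : ℕ} : ∀ l : List (J' × K), l.Pairwise (fun x y => x.2 < y.2) →
    (∀ x, x ∈ l → π x.1 < x.2) → ∀ p : Cond Q,
    (∀ x, x ∈ l → (p.1.st (φ (σ x.2) : WithTop J)).length ≤ n) →
    ∃ s ≤ p, ∀ x, x ∈ l → n < (s.1.st (φ x.1 : WithTop J)).length ∧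
      n < (s.1.st (φ (σ x.2) : WithTop J)).length ∧
      (s.1.st (φ x.1 : WithTop J)).getD n 0 ≤ (s.1.st (φ (σ x.2) : WithTop J)).getD n 0
  | [], _, _, p, _ => ⟨p, le_rfl, by simp⟩
  | x :: l, h1, h2, p, h3 => by
    rw [List.pairwise_cons] at h1
    obtain ⟨h1a, h1b⟩ := h1
    have hD : ∀ z ∈ {z : J | π (φ.symm z) < x.2}, ∀ y, Q y z → y ∈ {z : J | π (φ.symm z) < x.2} := by
      intro z hz y hy
      have h4 : φ.symm y ≤ φ.symm z := hφ _ _ (by rwa [φ.apply_symm_apply, φ.apply_symm_apply])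
      exact (hπ _ _ h4).trans_lt hz
    have hD' : ∀ z ∈ {z : J | π (φ.symm z) ≤ x.2}, ∀ y, Q y z →
        y ∈ {z : J | π (φ.symm z) ≤ x.2} := by
      intro z hz y hy
      have h4 : φ.symm y ≤ φ.symm z := hφ _ _ (by rwa [φ.apply_symm_apply, φ.apply_symm_apply])
      exact (hπ _ _ h4).trans hz
    obtain ⟨s, hs, hs', hs''⟩ := meet_step (Q := Q) (b := φ x.1) (c := φ (σ x.2)) hD hD'
      (fun z hz => le_of_lt hz)
      (by
        show π (φ.symm (φ x.1)) < x.2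
        rw [φ.symm_apply_apply]
        exact h2 x List.mem_cons_self)
      (by
        show ¬ π (φ.symm (φ (σ x.2))) < x.2
        rw [φ.symm_apply_apply, hσ]
        exact lt_irrefl _)
      (by
        show π (φ.symm (φ (σ x.2))) ≤ x.2
        rw [φ.symm_apply_apply, hσ])
      (h3 x List.mem_cons_self)
    obtain ⟨t, ht, ht'⟩ := meet_list l h1b (fun y hy => h2 y (List.mem_cons_of_mem _ hy)) s
      (fun y hy => by
        rw [hs'' _ (by
          show ¬ π (φ.symm (φ (σ y.2))) ≤ x.2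
          rw [φ.symm_apply_apply, hσ]
          exact not_le.2 (h1a y hy))]
        exact h3 y (List.mem_cons_of_mem _ hy))
    refine ⟨t, ht.trans hs, fun y hy => ?_⟩
    rcases List.mem_cons.1 hy with rfl | hy
    · obtain ⟨h5, h6⟩ := st_mono ht (φ y.1 : WithTop J) hs'.1
      obtain ⟨h7, h8⟩ := st_mono ht (φ (σ y.2) : WithTop J) hs'.2.1
      refine ⟨h5, h7, ?_⟩
      rw [h6, h8]
      exact hs'.2.2
    · exact ht' y hy

theorem fMeet_hechler (p : Cond Q) : p ∈ fMeet π σ (fun a => Ee (Q := Q) (φ a)) := by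
  intro l hl hl' N
  refine Pool.Agent.TH773.PSet.mem_fex.2 fun q _ => ?_
  obtain ⟨B, hB⟩ := ((List.finite_toSet l).image
    fun x => (q.1.st (φ (σ x.2) : WithTop J)).length).bddAbove
  obtain ⟨s, hs, hs'⟩ := meet_list hπ hσ φ hφ (n := max N B) l hl hl' q fun x hx =>
    (hB (Set.mem_image_of_mem _ hx)).trans (le_max_right _ _)
  refine ⟨s, hs, max N B, Pool.Agent.TH773.PSet.mem_fex_of (le_max_left _ _) fun r hr x hx a b
    hab t ht ht' => ?_⟩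
  obtain ⟨h1, h2, h3⟩ := hs' x hx
  obtain ⟨h4, h5⟩ := st_mono (ht.trans hr) (φ x.1 : WithTop J) h1
  obtain ⟨h6, h7⟩ := st_mono (ht.trans hr) (φ (σ x.2) : WithTop J) h2
  have h8 := val_eq h4 ht'.1
  have h9 := val_eq h6 ht'.2
  omega

end

end

/-! ### Comparing the two versions of the forcing language -/

section

variable {P : Type u} [Preorder P]

theorem isFun_iff {X Y : Type} {R : X → Y → Set P} {p : P} :
    p ∈ Pool.Agent.R593.Rnd.IsFun R ↔ p ∈ IsFun R := by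
  constructor
  · rintro ⟨h1, h2⟩
    refine ⟨h1, fun x y y' => mem_fimp.2 fun q hq h => ⟨q, le_rfl, ?_⟩⟩
    show y = y'
    by_contra hne
    exact h2 x y y' hne q hq h
  · rintro ⟨h1, h2⟩
    refine ⟨h1, fun x y y' hne q hq h => ?_⟩
    obtain ⟨r, _, hr⟩ := mem_fimp.1 (h2 x y y') q hq h
    exact hne hr

theorem evLe_iff {f g : ℕ → ℕ → Set P} {p : P} :
    p ∈ Pool.Agent.R593.Rnd.EvLe f g ↔ p ∈ LeStar f g := by
  have key : ∀ (N : ℕ) (r : P), (r ∈ Pool.Agent.TH773.PSet.fall fun n : ℕ =>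
      Pool.Agent.TH773.PSet.fall fun _ : N ≤ n => Pool.Agent.TH773.PSet.fall fun a : ℕ =>
      Pool.Agent.TH773.PSet.fall fun b : ℕ => Pool.Agent.TH773.PSet.fall fun _ : b < a =>
      Pool.Agent.TH773.PSet.fnot (Pool.Agent.TH773.PSet.fand
        (Pool.Agent.TH773.PSet.meets (f n a)) (Pool.Agent.TH773.PSet.meets (g n b)))) ↔
      r ∈ fall fun n : ℕ => fall fun _ : N ≤ n => fall fun a : ℕ => fall fun b : ℕ =>
        fimp (fand (meets (f n a)) (meets (g n b))) (fground (a ≤ b)) := by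
    intro N r
    constructor
    · intro h n hn a b
      refine mem_fimp.2 fun q hq h' => ⟨q, le_rfl, ?_⟩
      show a ≤ b
      by_contra hlt
      exact h n hn a b (not_le.1 hlt) q hq h'
    · intro h n hn a b hab q hq h'
      obtain ⟨s, _, hs⟩ := mem_fimp.1 (h n hn a b) q hq h'
      exact absurd (show a ≤ b from hs) (not_le.2 hab)
  constructor
  · intro h
    refine mem_fex.2 fun q hq => ?_
    obtain ⟨r, hr, N, hN⟩ := Pool.Agent.TH773.PSet.mem_fex.1 h q hq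
    exact ⟨r, hr, N, (key N r).1 hN⟩
  · intro h
    refine Pool.Agent.TH773.PSet.mem_fex.2 fun q hq => ?_
    obtain ⟨r, hr, N, hN⟩ := mem_fex.1 h q hq
    exact ⟨r, hr, N, (key N r).2 hN⟩

end

/-! ### The forcing -/

section

variable (K₁ K₂ K₃ K₄ : Type) [LinearOrder K₁] [LinearOrder K₂] [LinearOrder K₃] [LinearOrder K₄]

/-- the index set of the iteration -/
abbrev LJ : Type := K₁ ×ₗ (K₂ ×ₗ (K₃ ×ₗ K₄))

/-- the identification with the product -/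
def phi : Idx K₁ K₂ K₃ K₄ ≃ LJ K₁ K₂ K₃ K₄ where
  toFun a := toLex (a.1, toLex (a.2.1, toLex (a.2.2.1, a.2.2.2)))
  invFun x := ((ofLex x).1, (ofLex (ofLex x).2).1, (ofLex (ofLex (ofLex x).2).2).1,
    (ofLex (ofLex (ofLex x).2).2).2)
  left_inv _ := rfl
  right_inv _ := rfl

/-- the strict product order -/
def QJ (x y : LJ K₁ K₂ K₃ K₄) : Prop :=
  (phi K₁ K₂ K₃ K₄).symm x < (phi K₁ K₂ K₃ K₄).symm y

variable {K₁ K₂ K₃ K₄}

theorem pr2_mono {a b : Idx K₁ K₂ K₃ K₄} (h : a ≤ b) : pr2 a ≤ pr2 b := h.2.1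

theorem pr3_mono {a b : Idx K₁ K₂ K₃ K₄} (h : a ≤ b) : pr3 a ≤ pr3 b := h.2.2.1

theorem phi_lt {a b : Idx K₁ K₂ K₃ K₄} (h : a < b) :
    phi K₁ K₂ K₃ K₄ a < phi K₁ K₂ K₃ K₄ b := by
  obtain ⟨hle, hne⟩ := lt_iff_le_and_ne.1 h
  obtain ⟨a1, a2, a3, a4⟩ := a
  obtain ⟨b1, b2, b3, b4⟩ := b
  obtain ⟨h1, h2, h3, h4⟩ := hle
  simp only at h1 h2 h3 h4
  show toLex (a1, toLex (a2, toLex (a3, a4))) < toLex (b1, toLex (b2, toLex (b3, b4)))
  rw [Prod.Lex.lt_iff]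
  rcases h1.lt_or_eq with h | h
  · exact Or.inl h
  refine Or.inr ⟨h, ?_⟩
  show toLex (a2, toLex (a3, a4)) < toLex (b2, toLex (b3, b4))
  rw [Prod.Lex.lt_iff]
  rcases h2.lt_or_eq with h' | h'
  · exact Or.inl h'
  refine Or.inr ⟨h', ?_⟩
  show toLex (a3, a4) < toLex (b3, b4)
  rw [Prod.Lex.lt_iff]
  rcases h3.lt_or_eq with h'' | h''
  · exact Or.inl h''
  refine Or.inr ⟨h'', ?_⟩
  show a4 < b4
  refine lt_of_le_of_ne h4 fun h4' => hne ?_
  rw [h, h', h'', h4']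

theorem QJ_lt {x y : LJ K₁ K₂ K₃ K₄} (h : QJ K₁ K₂ K₃ K₄ x y) : x < y := by
  have := phi_lt h
  rwa [Equiv.apply_symm_apply, Equiv.apply_symm_apply] at this

variable [WellFoundedLT K₁] [WellFoundedLT K₂] [WellFoundedLT K₃] [WellFoundedLT K₄]

variable (K₁ K₂ K₃ K₄) in
/-- The forcing notion. -/
abbrev HP : Type := Cond (QJ K₁ K₂ K₃ K₄)

theorem ccc_HP : CCC (HP K₁ K₂ K₃ K₄) := fun _ f hX => cond_ccc f hX

theorem hcof_HP (r1 : Regu K₁) (r2 : Regu K₂) (r3 : Regu K₃) (r4 : Regu K₄) (l1 : ℵ₀ < #K₁)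
    (l2 : ℵ₀ < #K₂) (l3 : ℵ₀ < #K₃) (l4 : ℵ₀ < #K₄) (S : Set (LJ K₁ K₂ K₃ K₄))
    (hS : S.Countable) : ∃ b, ∀ s ∈ S, QJ K₁ K₂ K₃ K₄ s b := by
  have hS' : #S ≤ ℵ₀ := le_aleph0_iff_set_countable.2 hS
  obtain ⟨b1, h1⟩ := bound_image r1 (hS'.trans_lt l1) fun x => ((phi K₁ K₂ K₃ K₄).symm x).1
  obtain ⟨b2, h2⟩ := bound_image r2 (hS'.trans_lt l2) fun x => ((phi K₁ K₂ K₃ K₄).symm x).2.1
  obtain ⟨b3, h3⟩ := bound_image r3 (hS'.trans_lt l3) fun x => ((phi K₁ K₂ K₃ K₄).symm x).2.2.1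
  obtain ⟨b4, h4⟩ := bound_image r4 (hS'.trans_lt l4) fun x => ((phi K₁ K₂ K₃ K₄).symm x).2.2.2
  refine ⟨phi K₁ K₂ K₃ K₄ (b1, b2, b3, b4), fun s hs => ?_⟩
  show (phi K₁ K₂ K₃ K₄).symm s < (phi K₁ K₂ K₃ K₄).symm (phi K₁ K₂ K₃ K₄ (b1, b2, b3, b4))
  rw [Equiv.symm_apply_apply]
  refine lt_of_le_of_ne ⟨(h1 s hs).le, (h2 s hs).le, (h3 s hs).le, (h4 s hs).le⟩ fun h => ?_
  have := h1 s hs
  rw [h] at this
  exact lt_irrefl _ this

theorem fSystem_HP (r1 : Regu K₁) (r2 : Regu K₂) (r3 : Regu K₃) (r4 : Regu K₄) (l1 : ℵ₀ < #K₁)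
    (l2 : ℵ₀ < #K₂) (l3 : ℵ₀ < #K₃) (l4 : ℵ₀ < #K₄) (p : HP K₁ K₂ K₃ K₄) :
    p ∈ fSystem (HP K₁ K₂ K₃ K₄) K₁ K₂ K₃ K₄ := by
  refine Pool.Agent.TH773.PSet.mem_fex_of (fun a => Ee (Q := QJ K₁ K₂ K₃ K₄)
    (phi K₁ K₂ K₃ K₄ a)) fun q _ => ⟨fun a => isFun_iff.2 (isFun_Ee _ q), ?_, ?_, ?_, ?_, ?_⟩
  · intro a b hab
    refine evLe_iff.2 ?_
    rcases eq_or_lt_of_le hab with rfl | h
    · refine mem_fex_of_mem 0 ?_ ?_
      · exact down_fall fun _ => down_fall fun _ => down_fall fun _ => down_fall fun _ =>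
          down_fimp _ _
      · intro n _ c d
        refine mem_fimp.2 fun s hs h' => ⟨s, le_rfl, ?_⟩
        show c ≤ d
        exact (IsFun.unique (isFun_Ee _ s) h'.1 h'.2).le
    · refine leStar_of_Q (Q := QJ K₁ K₂ K₃ K₄) (fun _ _ h => QJ_lt h) ?_ q
      show (phi K₁ K₂ K₃ K₄).symm _ < (phi K₁ K₂ K₃ K₄).symm _
      rwa [Equiv.symm_apply_apply, Equiv.symm_apply_apply]
  · intro b a hab r hr hr'
    refine not_leStar_closed (Q := QJ K₁ K₂ K₃ K₄) (D := {z | (phi K₁ K₂ K₃ K₄).symm z ≤ a})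
      (b := phi K₁ K₂ K₃ K₄ a) (c := phi K₁ K₂ K₃ K₄ b) ?_ ?_ ?_ q r hr (evLe_iff.1 hr')
    · intro z hz y hy
      have h1 : (phi K₁ K₂ K₃ K₄).symm y < (phi K₁ K₂ K₃ K₄).symm z := hy
      exact h1.le.trans hz
    · show (phi K₁ K₂ K₃ K₄).symm _ ≤ a
      rw [Equiv.symm_apply_apply]
    · show ¬ (phi K₁ K₂ K₃ K₄).symm _ ≤ a
      rwa [Equiv.symm_apply_apply]
  · intro f
    refine Pool.Agent.TH773.PSet.mem_fimp.2 fun r _ hr => ?_
    obtain ⟨b, hb⟩ := dominated (Q := QJ K₁ K₂ K₃ K₄) (fun _ _ h => QJ_lt h)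
      (hcof_HP r1 r2 r3 r4 l1 l2 l3 l4) f
    obtain ⟨r', hr', h'⟩ := hb r (isFun_iff.1 hr)
    refine ⟨r', hr', Pool.Agent.TH773.PSet.mem_fex_of ((phi K₁ K₂ K₃ K₄).symm b)
      fun s hs => evLe_iff.2 ?_⟩
    show s ∈ LeStar f (Ee (phi K₁ K₂ K₃ K₄ ((phi K₁ K₂ K₃ K₄).symm b)))
    rw [Equiv.apply_symm_apply]
    exact down_LeStar _ _ _ h' _ hs
  · intro o
    refine fMeet_hechler (Q := QJ K₁ K₂ K₃ K₄) (J' := Idx K₁ K₂ K₃ K₄) (π := pr2) (σ := at2 o)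
      (fun _ _ h => pr2_mono h) (fun _ => rfl)
      (phi K₁ K₂ K₃ K₄) (fun a b h => ?_) q
    have h' : (phi K₁ K₂ K₃ K₄).symm _ < (phi K₁ K₂ K₃ K₄).symm _ := h
    rw [Equiv.symm_apply_apply, Equiv.symm_apply_apply] at h'
    exact h'.le
  · intro o
    refine fMeet_hechler (Q := QJ K₁ K₂ K₃ K₄) (J' := Idx K₁ K₂ K₃ K₄) (π := pr3) (σ := at3 o)
      (fun _ _ h => pr3_mono h) (fun _ => rfl)
      (phi K₁ K₂ K₃ K₄) (fun a b h => ?_) q
    have h' : (phi K₁ K₂ K₃ K₄).symm _ < (phi K₁ K₂ K₃ K₄).symm _ := h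
    rw [Equiv.symm_apply_apply, Equiv.symm_apply_apply] at h'
    exact h'.le

end

/-! ### Cardinals -/

theorem regu_ord {κ : Cardinal.{0}} (hκ : κ.IsRegular) : Regu κ.ord.ToType := by
  intro a f
  obtain ⟨b, hb⟩ := exists_bound hκ (Set.range f) (mk_range_le.trans_lt (mk_Iio_toType_ord_lt a))
  exact ⟨b, fun x => hb _ ⟨x, rfl⟩⟩

/-- The sentence is forced. -/
theorem phiHolds_HP {κ₁ κ₂ κ₃ κ₄ : Cardinal.{0}} (h1 : κ₁.IsRegular) (h2 : κ₂.IsRegular)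
    (h3 : κ₃.IsRegular) (h4 : κ₄.IsRegular) (l1 : ℵ₁ < κ₁) (l2 : κ₁ < κ₂) (l3 : κ₂ < κ₃)
    (l4 : κ₃ < κ₄) (p : HP κ₁.ord.ToType κ₂.ord.ToType κ₃.ord.ToType κ₄.ord.ToType) :
    p ∈ PhiHolds (HP κ₁.ord.ToType κ₂.ord.ToType κ₃.ord.ToType κ₄.ord.ToType)
      κ₁.ord.ToType κ₂.ord.ToType κ₃.ord.ToType κ₄.ord.ToType := by
  have e : ∀ κ : Cardinal.{0}, #κ.ord.ToType = κ := fun κ => by rw [mk_toType, card_ord]
  have u1 : ℵ₀ < κ₁ := aleph0_lt_aleph_one.trans l1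
  have u2 := u1.trans l2
  have u3 := u2.trans l3
  have u4 := u3.trans l4
  have hc : CCC (HP κ₁.ord.ToType κ₂.ord.ToType κ₃.ord.ToType κ₄.ord.ToType) := ccc_HP
  have hmul : ∀ κ ν : Cardinal.{0}, κ < ν → ℵ₀ < ν →
      #κ.ord.ToType * ℵ₀ < #ν.ord.ToType := by
    intro κ ν h h'
    rw [e, e]
    exact mul_lt_of_lt h'.le h h'
  refine ⟨?_, fNotOnto_of_lt hc (hmul _ _ l2 u2) p, fNotOnto_of_lt hc (hmul _ _ l3 u3) p,
    fNotOnto_of_lt hc (hmul _ _ l4 u4) p, fRegu_of_regu hc (regu_ord h1) (by rwa [e]) p,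
    fRegu_of_regu hc (regu_ord h2) (by rwa [e]) p, fRegu_of_regu hc (regu_ord h3) (by rwa [e]) p,
    fRegu_of_regu hc (regu_ord h4) (by rwa [e]) p,
    fSystem_HP (regu_ord h1) (regu_ord h2) (regu_ord h3) (regu_ord h4) (by rwa [e]) (by rwa [e])
      (by rwa [e]) (by rwa [e]) p⟩
  obtain ⟨a, ha⟩ := exists_le_Iio (K := κ₁.ord.ToType) (S := (ℵ₁ : Cardinal.{0}).ord.ToType) (by
    rw [e, e]; exact l1)
  refine Pool.Agent.TH773.PSet.mem_fex_of a fun q _ => fNotOnto_of_lt hc ?_ q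
  rw [mk_nat, aleph0_mul_aleph0]
  rw [e] at ha
  refine (aleph0_lt_aleph_one.trans_le ha).trans_le ?_
  exact mk_subtype_mono fun x hx => le_of_lt hx

end Pool.Agent.P8H90.BJ
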