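import Pool.Agent.P8H90.BJ.Ccc
import Pool.Agent.V11242.RN.Forced

/-!
# Random forcing preserves the sentence
-/

set_option autoImplicit false
set_option linter.unusedSectionVars false

namespace Pool.Agent.P8H90.BJ

open Cardinal Set Filter MeasureTheory Pool.Agent.TH773.PSet Pool.Agent.R593.Rnd

theorem ccc_random (I : Type) : CCC (Random I) := fun _ f hX => ccc_cond f hX

/-- Every function of the random extension is eventually dominated by one from any dominating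
family of the ground model. -/
theorem dominated_random {I J : Type} {e : J → ℕ → ℕ} (he : ∀ f, ∃ a, EvLeF f (e a))
    (f : ℕ → ℕ → Set (Random I)) (p : Random I) :
    p ∈ fimp (IsFun f) (fex fun a => EvLe f (check (e a))) := by
  rw [mem_fimp_reg (reg_isFun f).1 (reg_fex _)]
  intro r _ hr
  obtain ⟨F, hF, hfF⟩ := exists_rep_fun f
  have h1 := (isFun_ae hF hfF).1 hr
  obtain ⟨g, hg⟩ := exists_bound hF h1
  obtain ⟨a, N, hN⟩ := he g
  refine mem_fex_of a fun s hs => ?_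
  -- densely below `s`, some `N'` works
  refine mem_fex.2 fun t ht => ?_
  have h2 : t ∈ AE (coinProduct I) (⋃ N', ⋂ n, ⋂ (_ : N' ≤ n), ⋂ a, ⋂ (_ : g n < a), (F n a)ᶜ) := by
    rw [mem_AE_iff]
    have h3 : ∀ᵐ x ∂(coinProduct I), x ∈ t.1 → x ∈ r.1 := mem_AE_iff.1 (ht.trans hs)
    filter_upwards [hg, h3] with x h4 h5 h6
    obtain ⟨N', hN'⟩ := eventually_atTop.1 (h4 (h5 h6))
    simp only [mem_iUnion, mem_iInter, mem_compl_iff]
    exact ⟨N', fun n hn a ha hx => absurd (hN' n hn a hx) (not_le.2 ha)⟩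
  obtain ⟨N', hN'⟩ := exists_pos h2
  have hm : MeasurableSet (⋂ n, ⋂ (_ : N' ≤ n), ⋂ a, ⋂ (_ : g n < a), (F n a)ᶜ) :=
    MeasurableSet.iInter fun n => MeasurableSet.iInter fun _ => MeasurableSet.iInter fun a =>
      MeasurableSet.iInter fun _ => (hF n a).compl
  refine ⟨restr t _ hm hN', restr_le _ _ _ _, max N N', ?_⟩
  intro n hn c b hbc u hu hu'
  have h3 : b = e a n := (mem_meets_check.1 hu'.2).symm
  have h4 : u ∈ AE (coinProduct I) (F n c) := by rw [← hfF]; exact hu'.1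
  have h5 : u ∈ AE (coinProduct I) (F n c)ᶜ := by
    have h6 := down_AE _ _ (restr_mem t _ hm hN') _ hu
    rw [mem_AE_iff] at h6 ⊢
    filter_upwards [h6] with x h7 h8
    have h9 := h7 h8
    simp only [mem_iInter] at h9
    refine h9 n ((le_max_right _ _).trans hn) c ?_
    have := hN n ((le_max_left _ _).trans hn)
    omega
  exact not_AE_compl h4 h5

section

variable {K₁ K₂ K₃ K₄ : Type} [LinearOrder K₁] [LinearOrder K₂] [LinearOrder K₃] [LinearOrder K₄]
  [WellFoundedLT K₁] [WellFoundedLT K₂] [WellFoundedLT K₃] [WellFoundedLT K₄]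

theorem mul_aleph0_lt {X Y : Type} (h : #X < #Y) (h0 : ℵ₀ < #Y) : #X * ℵ₀ < #Y :=
  mul_lt_of_lt h0.le h h0

/-- Random forcing forces `PsiFor` if `PhiFor` holds and sufficiently many random reals are
added. -/
theorem psiHolds {I : Type} (h : PhiFor K₁ K₂ K₃ K₄) (hI : #K₄ < #I) (p : Random I) :
    p ∈ PsiHolds (Random I) K₁ K₂ K₃ K₄ := by
  obtain ⟨⟨a0, ha0⟩, n12, n23, n34, r1, r2, r3, r4, e, he, he', hcof, h2, h3⟩ := h
  obtain ⟨o, -⟩ := hcof 0
  have : Nonempty K₂ := ⟨o.2.1⟩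
  have : Nonempty K₃ := ⟨o.2.2.1⟩
  have : Nonempty K₄ := ⟨o.2.2.2⟩
  have : Nonempty {x // x ≤ a0} := ⟨⟨a0, le_rfl⟩⟩
  have l12 := lt_of_notOnto n12
  have l23 := lt_of_notOnto n23
  have l34 := lt_of_notOnto n34
  have l0 := lt_of_notOnto ha0
  rw [mk_nat] at l0
  have l1 : ℵ₀ < #K₁ := l0.trans_le (mk_subtype_le _)
  have l2 : ℵ₀ < #K₂ := l1.trans l12
  have l3 : ℵ₀ < #K₃ := l2.trans l23
  have l4 : ℵ₀ < #K₄ := l3.trans l34
  have hc := ccc_random I
  refine ⟨⟨?_, ?_, ?_, ?_, ?_, ?_, ?_, ?_, ?_⟩, ?_⟩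
  · refine mem_fex_of a0 fun q _ => fNotOnto_of_lt hc ?_ q
    rw [mk_nat, aleph0_mul_aleph0]
    exact l0
  · exact fNotOnto_of_lt hc (mul_aleph0_lt l12 l2) p
  · exact fNotOnto_of_lt hc (mul_aleph0_lt l23 l3) p
  · exact fNotOnto_of_lt hc (mul_aleph0_lt l34 l4) p
  · exact fRegu_of_regu hc r1 l1 p
  · exact fRegu_of_regu hc r2 l2 p
  · exact fRegu_of_regu hc r3 l3 p
  · exact fRegu_of_regu hc r4 l4 p
  · refine mem_fex_of (fun a => check (e a)) fun q _ => ⟨fun a => check_isFun _ _,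
      fun a b hab => evLe_check (he a b hab) q, fun a b hab => not_evLe_check (he' a b hab) q,
      fun f => dominated_random hcof f q, fun o => fMeet_check (h2 o) q,
      fun o => fMeet_check (h3 o) q⟩
  · exact (Pool.Agent.V11242.RN.phiHolds l4 hI p).2

end

end Pool.Agent.P8H90.BJ
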