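import Pool.Agent.P8H90.BJ.Defs
import Pool.Agent.Helper872.RN.Transfer

/-!
# Consequences of the sentence
-/

set_option autoImplicit false
set_option linter.unusedSectionVars false

namespace Pool.Agent.P8H90.BJ

open Cardinal Set

/-! ### Cardinals -/

theorem lt_of_notOnto {X Y : Type} [Nonempty Y] (h : NotOnto X Y) : #X < #Y := by
  by_contra hcon
  obtain ⟨g⟩ := not_lt.1 hcon
  exact h ⟨Function.invFun g, Function.invFun_surjective g.injective⟩

section Card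

variable {K : Type} [LinearOrder K] [WellFoundedLT K]

theorem mk_Iio_lt (h : Regu K) (a : K) : #{x // x < a} < #K := by
  by_contra hcon
  obtain ⟨g⟩ := not_lt.1 hcon
  have : Nonempty K := ⟨a⟩
  obtain ⟨b, hb⟩ := h a (Function.invFun g)
  obtain ⟨x, hx⟩ := Function.invFun_surjective g.injective b
  exact lt_irrefl b (hx ▸ hb x)

/-- a set smaller than `K` is at most as large as some initial segment -/
theorem exists_le_Iio {S : Type} (hS : #S < #K) : ∃ a : K, #S ≤ #{x // x < a} := by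
  by_contra hcon
  push Not at hcon
  have h1 : Ordinal.type (α := K) (· < ·) ≤ (#S).ord := by
    by_contra h2
    rw [not_le] at h2
    obtain ⟨a, ha⟩ := Ordinal.typein_surj (α := K) (· < ·) h2
    have h3 := hcon a
    have h4 : (Ordinal.typein (α := K) (· < ·) a).card = #{x // x < a} := rfl
    rw [← h4] at h3
    have h5 : (Ordinal.typein (α := K) (· < ·) a) = (#S).ord := ha
    rw [h5, card_ord] at h3
    exact lt_irrefl _ h3
  have h2 := Ordinal.card_le_card h1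
  rw [Ordinal.card_type, card_ord] at h2
  exact absurd hS (not_lt.2 h2)

theorem exists_bound_of_lt (h : Regu K) (S : Set K) (hS : #S < #K) : ∃ b, ∀ s ∈ S, s < b := by
  classical
  rcases S.eq_empty_or_nonempty with rfl | ⟨s0, hs0⟩
  · have : #K ≠ 0 := by
      intro h0
      rw [h0] at hS
      exact absurd hS (not_lt.2 bot_le)
    obtain ⟨b⟩ := mk_ne_zero_iff.1 this
    exact ⟨b, fun s hs => absurd hs (notMem_empty s)⟩
  · obtain ⟨a, ⟨g⟩⟩ := exists_le_Iio hS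
    have : Nonempty S := ⟨⟨s0, hs0⟩⟩
    obtain ⟨b, hb⟩ := h a (fun x => (Function.invFun g x).1)
    refine ⟨b, fun s hs => ?_⟩
    obtain ⟨x, hx⟩ := Function.invFun_surjective g.injective ⟨s, hs⟩
    have := hb x
    rwa [hx] at this

theorem exists_gt_of_regu (h : Regu K) (h0 : 1 < #K) (a : K) : ∃ b, a < b := by
  obtain ⟨b, hb⟩ := exists_bound_of_lt h {a} (by rwa [mk_singleton])
  exact ⟨b, hb a rfl⟩

end Card

/-! ### Eventual domination -/

theorem EvLeF.refl (f : ℕ → ℕ) : EvLeF f f := ⟨0, fun _ _ => le_rfl⟩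

theorem EvLeF.trans {f g h : ℕ → ℕ} (h1 : EvLeF f g) (h2 : EvLeF g h) : EvLeF f h := by
  obtain ⟨N, hN⟩ := h1
  obtain ⟨M, hM⟩ := h2
  exact ⟨max N M, fun n hn => (hN n (le_trans (le_max_left _ _) hn)).trans
    (hM n (le_trans (le_max_right _ _) hn))⟩

theorem leJ_fin {f g : ℕ → ℕ} : LeJ FinIdeal f g ↔ EvLeF f g := by
  constructor
  · intro h
    obtain ⟨N, hN⟩ := (show {n | g n < f n}.Finite from h).bddAbove
    refine ⟨N + 1, fun n hn => ?_⟩
    by_contra hlt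
    have := hN (show n ∈ {n | g n < f n} from not_le.1 hlt)
    omega
  · rintro ⟨N, hN⟩
    refine (Set.finite_lt_nat N).subset fun n hn => ?_
    by_contra hlt
    exact absurd (hN n (not_lt.1 hlt)) (not_le.2 hn)

section Ideal

variable {J : Set (Set ℕ)} (hJ : IsIdeal J)

include hJ

theorem LeJ.trans' {f g h : ℕ → ℕ} (h1 : LeJ J f g) (h2 : LeJ J g h) : LeJ J f h := by
  refine hJ.sub _ _ ?_ (hJ.union _ _ h1 h2)
  intro n hn
  have hn' : h n < f n := hn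
  by_cases h3 : g n < f n
  · exact Or.inl h3
  · exact Or.inr (lt_of_lt_of_le hn' (not_lt.1 h3))

theorem leJ_of_ev {f g : ℕ → ℕ} (h : EvLeF f g) : LeJ J f g := hJ.fin _ (leJ_fin.2 h)

theorem not_succ_leJ (f : ℕ → ℕ) : ¬ LeJ J (fun n => f n + 1) f := by
  intro h
  have : {n | f n < f n + 1} = Set.univ := by
    ext n
    simp
  unfold LeJ at h
  rw [this] at h
  exact hJ.proper h

end Ideal

/-! ### The ideal given by a projection -/

section Proj

variable {J K : Type} [SemilatticeSup J] [LinearOrder K] (π : J → K) (σ : K → J) (e : J → ℕ → ℕ)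

/-- The ideal generated by the sets where `e a` is larger than `e (σ d)` for some `d > π a`. -/
def PI : Set (Set ℕ) :=
  {X | ∃ (F : Finset (J × K)) (N : ℕ), (∀ x ∈ F, π x.1 < x.2) ∧
    ∀ n ∈ X, n < N ∨ ∃ x ∈ F, e (σ x.2) n < e x.1 n}

variable {π σ e}

theorem exists_ub (hπ : ∀ a b, π (a ⊔ b) = π a ⊔ π b) (d : K) (S : Finset J)
    (hS : ∀ a ∈ S, π a < d) (hne : S.Nonempty) : ∃ b, π b < d ∧ ∀ a ∈ S, a ≤ b := by
  classical
  induction hne using Finset.Nonempty.cons_induction with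
  | singleton a => exact ⟨a, hS a (Finset.mem_singleton_self a), fun b hb => by
      rw [Finset.mem_singleton] at hb; rw [hb]⟩
  | cons a s h hs ih =>
    obtain ⟨b, hb, hb'⟩ := ih fun c hc => hS c (Finset.mem_cons_of_mem hc)
    refine ⟨a ⊔ b, ?_, fun c hc => ?_⟩
    · rw [hπ]
      exact max_lt (hS a (Finset.mem_cons_self a s)) hb
    · rcases Finset.mem_cons.1 hc with rfl | hc
      · exact le_sup_left
      · exact (hb' c hc).trans le_sup_right

theorem meet_finset (hπ : ∀ a b, π (a ⊔ b) = π a ⊔ π b) (he : ∀ a b, a ≤ b → EvLeF (e a) (e b))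
    (hM : Meet π σ e) (F : Finset (J × K)) (hF : ∀ x ∈ F, π x.1 < x.2) (N : ℕ) :
    ∃ n, N ≤ n ∧ ∀ x ∈ F, e x.1 n ≤ e (σ x.2) n := by
  classical
  -- upper bounds
  have h1 : ∀ d : K, ∃ b, d ∈ F.image Prod.snd → π b < d ∧ ∀ x ∈ F, x.2 = d → x.1 ≤ b := by
    intro d
    by_cases hd : d ∈ F.image Prod.snd
    · obtain ⟨x, hx, rfl⟩ := Finset.mem_image.1 hd
      obtain ⟨b, hb, hb'⟩ := exists_ub hπ x.2 ((F.filter fun y => y.2 = x.2).image Prod.fst)
        (by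
          intro a ha
          obtain ⟨y, hy, rfl⟩ := Finset.mem_image.1 ha
          obtain ⟨hy1, hy2⟩ := Finset.mem_filter.1 hy
          rw [← hy2]
          exact hF y hy1)
        ⟨x.1, Finset.mem_image.2 ⟨x, Finset.mem_filter.2 ⟨hx, rfl⟩, rfl⟩⟩
      exact ⟨b, fun _ => ⟨hb, fun y hy hyx => hb' y.1
        (Finset.mem_image.2 ⟨y, Finset.mem_filter.2 ⟨hy, hyx⟩, rfl⟩)⟩⟩
    · exact ⟨σ d, fun h => absurd h hd⟩
  choose b hb using h1
  have h2 : ∀ x ∈ F, ∃ M, ∀ n, M ≤ n → e x.1 n ≤ e (b x.2) n := fun x hx =>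
    he _ _ ((hb x.2 (Finset.mem_image_of_mem _ hx)).2 x hx rfl)
  choose! M hM' using h2
  obtain ⟨n, hn, h3⟩ := hM (((F.image Prod.snd).sort (· ≤ ·)).map fun d => (b d, d)) (by
      rw [List.pairwise_map]
      exact (Finset.sortedLT_sort _).pairwise) (by
      intro x hx
      obtain ⟨d, hd, rfl⟩ := List.mem_map.1 hx
      rw [Finset.mem_sort] at hd
      exact (hb d hd).1) (max N (F.sup M))
  refine ⟨n, (le_max_left _ _).trans hn, fun x hx => ?_⟩
  have h4 : M x ≤ n := (Finset.le_sup hx).trans ((le_max_right _ _).trans hn)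
  refine (hM' x hx n h4).trans ?_
  refine h3 (b x.2, x.2) (List.mem_map.2 ⟨x.2, ?_, rfl⟩)
  rw [Finset.mem_sort]
  exact Finset.mem_image_of_mem _ hx

theorem isIdeal_PI (hπ : ∀ a b, π (a ⊔ b) = π a ⊔ π b) (he : ∀ a b, a ≤ b → EvLeF (e a) (e b))
    (hM : Meet π σ e) : IsIdeal (PI π σ e) where
  fin X hX := by
    obtain ⟨N, hN⟩ := hX.bddAbove
    exact ⟨∅, N + 1, by simp, fun n hn => Or.inl (Nat.lt_succ_of_le (hN hn))⟩
  sub := by
    rintro X Y h ⟨F, N, h1, h2⟩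
    exact ⟨F, N, h1, fun n hn => h2 n (h hn)⟩
  union := by
    classical
    rintro X Y ⟨F, N, h1, h2⟩ ⟨G, M, h3, h4⟩
    refine ⟨F ∪ G, max N M, fun x hx => ?_, fun n hn => ?_⟩
    · rcases Finset.mem_union.1 hx with hx | hx
      · exact h1 x hx
      · exact h3 x hx
    · rcases hn with hn | hn
      · rcases h2 n hn with h | ⟨x, hx, h⟩
        · exact Or.inl (h.trans_le (le_max_left _ _))
        · exact Or.inr ⟨x, Finset.mem_union_left _ hx, h⟩
      · rcases h4 n hn with h | ⟨x, hx, h⟩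
        · exact Or.inl (h.trans_le (le_max_right _ _))
        · exact Or.inr ⟨x, Finset.mem_union_right _ hx, h⟩
  proper := by
    rintro ⟨F, N, h1, h2⟩
    obtain ⟨n, hn, h3⟩ := meet_finset hπ he hM F h1 N
    rcases h2 n (mem_univ n) with h | ⟨x, hx, h⟩
    · omega
    · exact absurd (h3 x hx) (not_le.2 h)

theorem leJ_PI {a : J} {d : K} (h : π a < d) : LeJ (PI π σ e) (e a) (e (σ d)) :=
  ⟨{(a, d)}, 0, by simpa using h, fun n hn => Or.inr ⟨(a, d), Finset.mem_singleton_self _, hn⟩⟩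

end Proj

/-! ### Scales and sums of ideals -/

/-- `c` is increasing and cofinal modulo the ideal `A`. -/
structure Scale {K : Type} [LinearOrder K] (A : Set (Set ℕ)) (c : K → ℕ → ℕ) : Prop where
  ideal : IsIdeal A
  mono : ∀ d d', d ≤ d' → LeJ A (c d) (c d')
  cof : ∀ f, ∃ d, LeJ A f (c d)

theorem scale_PI {J K : Type} [SemilatticeSup J] [LinearOrder K] [WellFoundedLT K] {π : J → K}
    {σ : K → J} {e : J → ℕ → ℕ} (hπ : ∀ a b, π (a ⊔ b) = π a ⊔ π b)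
    (hσ : ∀ d d', d ≤ d' → σ d ≤ σ d') (he : ∀ a b, a ≤ b → EvLeF (e a) (e b))
    (hM : Meet π σ e) (hcof : ∀ f, ∃ a, EvLeF f (e a)) (hK : ∀ d : K, ∃ d', d < d') :
    Scale (PI π σ e) (fun d => e (σ d)) where
  ideal := isIdeal_PI hπ he hM
  mono d d' h := leJ_of_ev (isIdeal_PI hπ he hM) (he _ _ (hσ d d' h))
  cof f := by
    obtain ⟨a, ha⟩ := hcof f
    obtain ⟨d, hd⟩ := hK (π a)
    exact ⟨d, (leJ_of_ev (isIdeal_PI hπ he hM) ha).trans' (isIdeal_PI hπ he hM) (leJ_PI hd)⟩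

/-- The sum of two ideals, on the even and on the odd numbers. -/
def SumI (A B : Set (Set ℕ)) : Set (Set ℕ) := {X | {n | 2 * n ∈ X} ∈ A ∧ {n | 2 * n + 1 ∈ X} ∈ B}

theorem isIdeal_sum {A B : Set (Set ℕ)} (hA : IsIdeal A) (hB : IsIdeal B) :
    IsIdeal (SumI A B) where
  fin X hX := by
    refine ⟨hA.fin _ ?_, hB.fin _ ?_⟩
    · exact hX.preimage (f := fun n => 2 * n) (by intro a _ b _ h; simpa using h)
    · exact hX.preimage (f := fun n => 2 * n + 1) (by intro a _ b _ h; simpa using h)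
  sub X Y h hY := by
    have h1 : {n | 2 * n ∈ X} ⊆ {n | 2 * n ∈ Y} := fun n hn => h hn
    have h2 : {n | 2 * n + 1 ∈ X} ⊆ {n | 2 * n + 1 ∈ Y} := fun n hn => h hn
    exact ⟨hA.sub _ _ h1 hY.1, hB.sub _ _ h2 hY.2⟩
  union X Y hX hY := by
    refine ⟨hA.sub _ _ ?_ (hA.union _ _ hX.1 hY.1), hB.sub _ _ ?_ (hB.union _ _ hX.2 hY.2)⟩
    · intro n hn; exact hn
    · intro n hn; exact hn
  proper h := by
    apply hA.proper
    exact hA.sub _ _ (fun n _ => mem_univ _) h.1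

/-- the function with even part `u` and odd part `v` -/
def comb (u v : ℕ → ℕ) (m : ℕ) : ℕ := if m % 2 = 0 then u (m / 2) else v (m / 2)

theorem comb_even (u v : ℕ → ℕ) (n : ℕ) : comb u v (2 * n) = u n := by
  unfold comb
  rw [if_pos (by omega)]
  congr 1
  omega

theorem comb_odd (u v : ℕ → ℕ) (n : ℕ) : comb u v (2 * n + 1) = v n := by
  unfold comb
  rw [if_neg (by omega)]
  congr 1
  omega

theorem leJ_sum {A B : Set (Set ℕ)} {f g : ℕ → ℕ} : LeJ (SumI A B) f g ↔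
    LeJ A (fun n => f (2 * n)) (fun n => g (2 * n)) ∧
      LeJ B (fun n => f (2 * n + 1)) (fun n => g (2 * n + 1)) := Iff.rfl

theorem comb_even' (u v : ℕ → ℕ) : (fun n => comb u v (2 * n)) = u := funext (comb_even u v)

theorem comb_odd' (u v : ℕ → ℕ) : (fun n => comb u v (2 * n + 1)) = v := funext (comb_odd u v)

/-! ### Bounds for the invariants -/

section Inv

variable {J : Set (Set ℕ)}

theorem le_bJ (hJ : IsIdeal J) {κ : Cardinal.{0}}
    (h : ∀ F : Set (ℕ → ℕ), #F < κ → ∃ g, ∀ f ∈ F, LeJ J f g) : κ ≤ bJ J := by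
  refine le_csInf ⟨_, Set.univ, ?_, rfl⟩ ?_
  · rintro ⟨g, hg⟩
    exact not_succ_leJ hJ g (hg _ (mem_univ _))
  · rintro _ ⟨F, hF, rfl⟩
    by_contra hlt
    exact hF (h F (not_le.1 hlt))

theorem bJ_le {F : Set (ℕ → ℕ)} (h : ¬ ∃ g, ∀ f ∈ F, LeJ J f g) : bJ J ≤ #F :=
  csInf_le' ⟨F, h, rfl⟩

theorem dJ_le {D : Set (ℕ → ℕ)} (h : ∀ f, ∃ g ∈ D, LeJ J f g) : dJ J ≤ #D :=
  csInf_le' ⟨D, h, rfl⟩

theorem le_dJ (hJ : IsIdeal J) {κ : Cardinal.{0}}
    (h : ∀ D : Set (ℕ → ℕ), #D < κ → ∃ f, ∀ g ∈ D, ¬ LeJ J f g) : κ ≤ dJ J := by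
  refine le_csInf ⟨_, Set.univ, ?_, rfl⟩ ?_
  · intro f
    refine ⟨f, mem_univ _, hJ.sub _ _ ?_ (hJ.fin ∅ finite_empty)⟩
    intro n hn
    exact absurd (show f n < f n from hn) (lt_irrefl _)
  · rintro _ ⟨D, hD, rfl⟩
    by_contra hlt
    obtain ⟨f, hf⟩ := h D (not_le.1 hlt)
    obtain ⟨g, hg, hfg⟩ := hD f
    exact hf g hg hfg

end Inv

theorem isIdeal_fin : IsIdeal FinIdeal where
  fin _ h := h
  sub _ _ h h' := h'.subset h
  union _ _ h h' := h.union h'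
  proper h := Set.infinite_univ h

section Sum

variable {K L : Type} [LinearOrder K] [WellFoundedLT K] [LinearOrder L] [WellFoundedLT L]
  {A B : Set (Set ℕ)} {c : K → ℕ → ℕ} {d : L → ℕ → ℕ}

theorem bound_image {X K : Type} [LinearOrder K] [WellFoundedLT K] (hK : Regu K) {F : Set X}
    (hF : #F < #K) (t : X → K) : ∃ b, ∀ f ∈ F, t f < b := by
  obtain ⟨b, hb⟩ := exists_bound_of_lt hK (t '' F) (mk_image_le.trans_lt hF)
  exact ⟨b, fun f hf => hb _ (mem_image_of_mem _ hf)⟩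

theorem le_bJ_sum (hc : Scale A c) (hd : Scale B d) (hK : Regu K) (hL : Regu L) (h : #K ≤ #L) :
    #K ≤ bJ (SumI A B) := by
  refine le_bJ (isIdeal_sum hc.ideal hd.ideal) fun F hF => ?_
  choose s hs using fun f : ℕ → ℕ => hc.cof fun n => f (2 * n)
  choose t ht using fun f : ℕ → ℕ => hd.cof fun n => f (2 * n + 1)
  obtain ⟨b, hb⟩ := bound_image hK hF s
  obtain ⟨b', hb'⟩ := bound_image hL (hF.trans_le h) t
  refine ⟨comb (c b) (d b'), fun f hf => leJ_sum.2 ?_⟩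
  rw [comb_even', comb_odd']
  exact ⟨(hs f).trans' hc.ideal (hc.mono _ _ (hb f hf).le),
    (ht f).trans' hd.ideal (hd.mono _ _ (hb' f hf).le)⟩

theorem bJ_sum_le (hc : Scale A c) : bJ (SumI A B) ≤ #K := by
  refine (bJ_le (F := range fun k => comb (c k) 0) ?_).trans mk_range_le
  rintro ⟨g, hg⟩
  obtain ⟨k, hk⟩ := hc.cof fun n => g (2 * n) + 1
  have h1 := (leJ_sum.1 (hg _ ⟨k, rfl⟩)).1
  rw [comb_even'] at h1
  exact not_succ_leJ hc.ideal _ (hk.trans' hc.ideal h1)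

theorem le_dJ_sum (hc : Scale A c) (hd : Scale B d) (hL : Regu L) : #L ≤ dJ (SumI A B) := by
  refine le_dJ (isIdeal_sum hc.ideal hd.ideal) fun D hD => ?_
  choose t ht using fun f : ℕ → ℕ => hd.cof fun n => f (2 * n + 1)
  obtain ⟨b, hb⟩ := bound_image hL hD t
  refine ⟨comb 0 (fun n => d b n + 1), fun g hg hle => ?_⟩
  have h1 := (leJ_sum.1 hle).2
  rw [comb_odd'] at h1
  exact not_succ_leJ hd.ideal _ ((h1.trans' hd.ideal (ht g)).trans' hd.ideal
    (hd.mono _ _ (hb g hg).le))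

theorem dJ_sum_le (hc : Scale A c) (hd : Scale B d) (h : #K ≤ #L) (h0 : ℵ₀ ≤ #L) :
    dJ (SumI A B) ≤ #L := by
  refine (dJ_le (D := range fun x : K × L => comb (c x.1) (d x.2)) fun f => ?_).trans
    (mk_range_le.trans ?_)
  · obtain ⟨k, hk⟩ := hc.cof fun n => f (2 * n)
    obtain ⟨l, hl⟩ := hd.cof fun n => f (2 * n + 1)
    refine ⟨_, ⟨(k, l), rfl⟩, leJ_sum.2 ?_⟩
    rw [comb_even', comb_odd']
    exact ⟨hk, hl⟩
  · rw [mk_prod, lift_id, lift_id]
    exact (mul_le_mul' h le_rfl).trans (mul_eq_self h0).le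

end Sum

/-! ### The answer -/

section Main

variable {K₁ K₂ K₃ K₄ : Type} [LinearOrder K₁] [LinearOrder K₂] [LinearOrder K₃] [LinearOrder K₄]
  [WellFoundedLT K₁] [WellFoundedLT K₂] [WellFoundedLT K₃] [WellFoundedLT K₄]

theorem phi_consequences (h : PhiFor K₁ K₂ K₃ K₄) :
    (∃ J, IsIdeal J ∧ bJ FinIdeal = #K₁ ∧ bJ J = #K₂ ∧ dJ J = #K₃ ∧ dJ FinIdeal = #K₄) ∧
    ℵ₁ < #K₁ ∧ #K₁ < #K₂ ∧ #K₂ < #K₃ ∧ #K₃ < #K₄ := by
  obtain ⟨⟨a0, ha0⟩, n12, n23, n34, r1, r2, r3, r4, e, he, he', hcof, h2, h3⟩ := h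
  obtain ⟨o, -⟩ := hcof 0
  have : Nonempty K₂ := ⟨o.2.1⟩
  have : Nonempty K₃ := ⟨o.2.2.1⟩
  have : Nonempty K₄ := ⟨o.2.2.2⟩
  have : Nonempty {x // x ≤ a0} := ⟨⟨a0, le_rfl⟩⟩
  have l12 := lt_of_notOnto n12
  have l23 := lt_of_notOnto n23
  have l34 := lt_of_notOnto n34
  have l0 := lt_of_notOnto ha0
  rw [mk_nat] at l0
  have l1' : ℵ₀ < #K₁ := l0.trans_le (mk_subtype_le _)
  have l1 : ℵ₁ < #K₁ := by
    obtain ⟨b, hb⟩ := exists_gt_of_regu r1 (one_lt_aleph0.trans l1') a0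
    refine lt_of_le_of_lt ?_ (mk_Iio_lt r1 b)
    refine le_trans ?_ (mk_subtype_mono (p := fun x => x ≤ a0) (q := fun x => x < b)
      fun x hx => lt_of_le_of_lt hx hb)
    rw [← succ_aleph0]
    exact Order.succ_le_of_lt l0
  have g1 : ∀ a : K₁, ∃ b, a < b := exists_gt_of_regu r1 (one_lt_aleph0.trans l1')
  have g2 : ∀ a : K₂, ∃ b, a < b := exists_gt_of_regu r2 (one_lt_aleph0.trans (l1'.trans l12))
  have g3 : ∀ a : K₃, ∃ b, a < b :=
    exists_gt_of_regu r3 (one_lt_aleph0.trans ((l1'.trans l12).trans l23))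
  have l3' : ℵ₀ < #K₃ := (l1'.trans l12).trans l23
  have l4' : ℵ₀ < #K₄ := l3'.trans l34
  have s2 : Scale (PI pr2 (at2 o) e) (fun d => e (at2 o d)) := scale_PI (fun _ _ => rfl)
    (fun d d' h => ⟨le_rfl, h, le_rfl, le_rfl⟩) he (h2 o) hcof g2
  have s3 : Scale (PI pr3 (at3 o) e) (fun d => e (at3 o d)) := scale_PI (fun _ _ => rfl)
    (fun d d' h => ⟨le_rfl, le_rfl, h, le_rfl⟩) he (h3 o) hcof g3
  -- bounding families
  have hub : ∀ F : Set (ℕ → ℕ), #F < #K₁ → ∃ g, ∀ f ∈ F, LeJ FinIdeal f g := by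
    intro F hF
    choose t ht using hcof
    obtain ⟨b1, hb1⟩ := bound_image r1 hF fun f => (t f).1
    obtain ⟨b2, hb2⟩ := bound_image r2 (hF.trans l12) fun f => (t f).2.1
    obtain ⟨b3, hb3⟩ := bound_image r3 ((hF.trans l12).trans l23) fun f => (t f).2.2.1
    obtain ⟨b4, hb4⟩ := bound_image r4 (((hF.trans l12).trans l23).trans l34)
      fun f => (t f).2.2.2
    refine ⟨e (b1, b2, b3, b4), fun f hf => leJ_fin.2 ((ht f).trans (he _ _ ?_))⟩
    exact ⟨(hb1 f hf).le, (hb2 f hf).le, (hb3 f hf).le, (hb4 f hf).le⟩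
  have u1 : #K₁ ≤ bJ FinIdeal := le_bJ isIdeal_fin hub
  have u2 : bJ FinIdeal ≤ #K₁ := by
    refine (bJ_le (F := range fun x : K₁ => e (x, o.2)) ?_).trans mk_range_le
    rintro ⟨g, hg⟩
    obtain ⟨b, hb⟩ := hcof g
    obtain ⟨x, hx⟩ := g1 b.1
    have h4 := (leJ_fin.1 (hg _ ⟨x, rfl⟩)).trans hb
    refine he' _ _ (fun hle => ?_) h4
    exact absurd hle.1 (not_le.2 hx)
  have u3 : #K₄ ≤ dJ FinIdeal := by
    refine le_dJ isIdeal_fin fun D hD => ?_
    choose t ht using hcof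
    obtain ⟨b, hb⟩ := bound_image r4 hD fun f => (t f).2.2.2
    refine ⟨e (o.1, o.2.1, o.2.2.1, b), fun g hg hle => ?_⟩
    refine he' _ _ (fun hle' => ?_) ((leJ_fin.1 hle).trans (ht g))
    exact absurd hle'.2.2.2 (not_le.2 (hb g hg))
  have u4 : dJ FinIdeal ≤ #K₄ := by
    refine (dJ_le (D := range e) fun f => ?_).trans (mk_range_le.trans ?_)
    · obtain ⟨a, ha⟩ := hcof f
      exact ⟨e a, ⟨a, rfl⟩, leJ_fin.2 ha⟩
    · simp only [mk_prod, lift_id]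
      have m1 : #K₃ * #K₄ ≤ #K₄ := (mul_le_mul' l34.le le_rfl).trans (mul_eq_self l4'.le).le
      have m2 : #K₂ * (#K₃ * #K₄) ≤ #K₄ :=
        (mul_le_mul' (l23.trans l34).le m1).trans (mul_eq_self l4'.le).le
      exact (mul_le_mul' ((l12.trans l23).trans l34).le m2).trans (mul_eq_self l4'.le).le
  exact ⟨⟨SumI (PI pr2 (at2 o) e) (PI pr3 (at3 o) e), isIdeal_sum s2.ideal s3.ideal,
    u2.antisymm u1, (bJ_sum_le s2).antisymm (le_bJ_sum s2 s3 r2 r3 l23.le),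
    (dJ_sum_le s2 s3 l23.le l3'.le).antisymm (le_dJ_sum s2 s3 r3), u4.antisymm u3⟩,
    l1, l12, l23, l34⟩

end Main

open MeasureTheory Pool.Agent.V11242.RN Pool.Agent.Helper872.RN in
theorem lt_covN {K : Type} (h : NoNullCoverFor K) : #K < covN := by
  have hne : {κ | ∃ F : Set (Set ℝ), (∀ A ∈ F, volume A = 0) ∧ ⋃₀ F = Set.univ ∧
      #F = κ}.Nonempty := by
    refine ⟨_, Set.range fun x : ℝ => ({x} : Set ℝ), ?_, ?_, rfl⟩
    · rintro _ ⟨x, rfl⟩
      exact measure_singleton x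
    · refine Set.eq_univ_of_forall fun x => ⟨{x}, ⟨x, rfl⟩, rfl⟩
  obtain ⟨F, h1, h2, h3⟩ := csInf_mem hne
  rw [covN, ← h3]
  by_contra hlt
  obtain ⟨g⟩ : Nonempty (F ↪ K) := not_lt.1 hlt
  have hFne : Nonempty F := by
    have : (0 : ℝ) ∈ ⋃₀ F := by rw [h2]; exact mem_univ _
    obtain ⟨A, hA, -⟩ := this
    exact ⟨⟨A, hA⟩⟩
  have h4 : ∀ k : K, ∃ c : ℕ → Set (List Bool), NullCode c ∧
      ∀ x ∈ UU ⁻¹' (Function.invFun g k).1, InCoded x c := fun k =>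
    exists_code (lam_preimage_eq_zero (h1 _ (Function.invFun g k).2))
  choose c hc hc' using h4
  obtain ⟨x, hx⟩ := h c hc
  have h5 : UU x ∈ ⋃₀ F := by rw [h2]; exact mem_univ _
  obtain ⟨A, hA, hxA⟩ := h5
  refine hx (g ⟨A, hA⟩) (hc' _ x ?_)
  rw [Function.leftInverse_invFun g.injective]
  exact hxA

/-- The sentence `PsiFor` answers the question. -/
theorem psi_consequences {K₁ K₂ K₃ K₄ : Type} [LinearOrder K₁] [LinearOrder K₂] [LinearOrder K₃]
    [LinearOrder K₄] [WellFoundedLT K₁] [WellFoundedLT K₂] [WellFoundedLT K₃] [WellFoundedLT K₄]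
    (h : PsiFor K₁ K₂ K₃ K₄) :
    (∃ J, IsIdeal J ∧ bJ FinIdeal = #K₁ ∧ bJ J = #K₂ ∧ dJ J = #K₃ ∧ dJ FinIdeal = #K₄) ∧
    ℵ₁ < #K₁ ∧ #K₁ < #K₂ ∧ #K₂ < #K₃ ∧ #K₃ < #K₄ ∧ #K₄ < covN := by
  obtain ⟨h1, h2, h3, h4, h5⟩ := phi_consequences h.1
  exact ⟨h1, h2, h3, h4, h5, lt_covN h.2⟩

end Pool.Agent.P8H90.BJ
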